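import Pool.Agent.Helper759.MatTriEven

/-!
# Turán's problem for `K_5^3` in matroids

The independent three-element sets of a matroid form a 3-graph. It contains no `K_5^3` if and only
if every five elements of the matroid contain a dependent triple. Turán's conjecture for `2s`
vertices says that a 3-graph without `K_5^3` has at most `s² (s - 1)` edges. It is proved here for
all `s` in the class of the 3-graphs of independent triples of matroids (with loops and parallel
elements allowed). For all `n ≥ 14`, even or odd, the maximum in this class is
`C(n,3) - C(⌊n/2⌋,3) - C(⌈n/2⌉,3)`, and it is attained exactly if the dependent triples are those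
inside one of two complementary sets of `⌊n/2⌋` and `⌈n/2⌉` elements. (For `n = 9, 13` the affine
and the projective plane of order three have more independent triples than this number; this
remark is not formalised.)

The results follow from a structure theorem: if every five elements contain a dependent triple,
then either the elements are divided into two sets without independent triples, or there are at
most `(18/169) n³` independent triples.

Proof. The link of an element `x` is a complete multipartite graph, up to isolated vertices. If
it has five classes, five elements from different classes contain no four elements with all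
triples independent; so four of them are collinear, and all elements outside this line are
collinear (or, if all five are collinear, the same holds for another reason). If all links have at
most four classes, Turán's theorem for the links gives `s² (s - 1)` if `n = 2s`; moreover every
line has at most four points, so there are at most 13 points, which gives `(18/169) n³`.
-/

set_option autoImplicit false

namespace Pool.Agent.Results.MP_555f9b_co.MatroidTriples

open Finset

/-- Every five elements of the matroid contain a dependent triple. -/
def FiveFree {n : ℕ} (M : Matroid (Fin n)) : Prop :=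
  ∀ Y : Finset (Fin n), Y.card = 5 → ∃ S ⊆ Y, S.card = 3 ∧ ¬ M.Indep (S : Set (Fin n))

open Classical in
/-- The independent sets with three elements. -/
noncomputable def triples {n : ℕ} (M : Matroid (Fin n)) : Finset (Finset (Fin n)) :=
  univ.filter fun S => S.card = 3 ∧ M.Indep (S : Set (Fin n))

/-- Turán's conjectured number of edges of a `K_5^3`-free 3-graph on `n` vertices. -/
def turan (n : ℕ) : ℕ := n.choose 3 - (n / 2).choose 3 - ((n + 1) / 2).choose 3

/-- **Theorem.** Let every five elements of the matroid `M` contain a dependent triple.
1. If `M` has `2s` elements, it has at most `s² (s - 1)` independent triples.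
2. If `M` has `n` elements, either the elements can be divided into `A` and its complement such
   that every triple inside `A` and every triple inside the complement is dependent, or there are
   at most `(18/169) n³` independent triples.
3. For `n ≥ 14` there are at most `turan n` independent triples; equality holds if and only if for
   some set `A` of `⌊n/2⌋` elements the independent triples are exactly the triples that are
   contained neither in `A` nor in the complement of `A`.
4. For every `n` such a matroid with `turan n` independent triples exists, and
   `turan (2s) = s² (s - 1)`. -/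
theorem result :
    (∀ (s : ℕ) (M : Matroid (Fin (2 * s))), FiveFree M → (triples M).card ≤ s ^ 2 * (s - 1)) ∧
    (∀ (n : ℕ) (M : Matroid (Fin n)), FiveFree M →
      (∃ A : Finset (Fin n), ∀ S : Finset (Fin n), S.card = 3 → (S ⊆ A ∨ S ⊆ Aᶜ) →
        ¬ M.Indep (S : Set (Fin n))) ∨ 169 * (triples M).card ≤ 18 * n ^ 3) ∧
    (∀ n : ℕ, 14 ≤ n → ∀ M : Matroid (Fin n), FiveFree M →
      (triples M).card ≤ turan n ∧
      ((triples M).card = turan n ↔ ∃ A : Finset (Fin n), A.card = n / 2 ∧
        ∀ S : Finset (Fin n), S.card = 3 →
          (M.Indep (S : Set (Fin n)) ↔ ¬ S ⊆ A ∧ ¬ S ⊆ Aᶜ))) ∧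
    (∀ n : ℕ, ∃ M : Matroid (Fin n), FiveFree M ∧ (triples M).card = turan n) ∧
    (∀ s : ℕ, turan (2 * s) = s ^ 2 * (s - 1)) := by
  classical
  have hT : ∀ {n : ℕ} (M : Matroid (Fin n)),
      triples M = Pool.Agent.Helper759.MatTri.triples M := by
    intro n M
    ext S
    rw [triples, Pool.Agent.Helper759.MatTri.triples, mem_filter]
  have hcross : ∀ {n : ℕ} (A : Finset (Fin n)), A.card = n / 2 →
      (Pool.Agent.Helper759.MatTri.crossing A).card = turan n := by
    intro n A hA
    have h1 := Pool.Agent.Helper759.MatTri.card_crossing A
    have h2 := (Pool.Agent.Helper759.MatTri.turan_eq n).1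
    have h3 : Aᶜ.card = (n + 1) / 2 := by
      rw [card_compl, Fintype.card_fin, hA]
      omega
    rw [hA, h3, Fintype.card_fin] at h1
    have h4 : Pool.Agent.Helper759.MatTri.turan n = turan n := rfl
    omega
  refine ⟨fun s M hM => ?_, fun n M hM => ?_, fun n hn M hM => ?_, fun n => ?_,
    Pool.Agent.Helper759.MatTri.turan_even⟩
  · rw [hT]
    exact Pool.Agent.Helper759.MatTri.even_bound M hM s (Fintype.card_fin _)
  · rcases Pool.Agent.Helper759.MatTri.split_or M hM with ⟨A, hA⟩ | h
    · left
      refine ⟨univ.filter fun x => x ∈ A, fun S hS hSA => hA S hS ?_⟩
      rcases hSA with h | h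
      · exact Or.inl fun x hx => (mem_filter.1 (h (mem_coe.1 hx))).2
      · right
        intro x hx hxA
        exact (mem_compl.1 (h (mem_coe.1 hx))) (mem_filter.2 ⟨mem_univ _, hxA⟩)
    · right
      rw [Fintype.card_fin] at h
      rw [hT]
      exact h
  · rw [hT]
    have hback : (∃ A : Finset (Fin n), A.card = n / 2 ∧ ∀ S : Finset (Fin n), S.card = 3 →
          (M.Indep (S : Set (Fin n)) ↔ ¬ S ⊆ A ∧ ¬ S ⊆ Aᶜ)) →
        (Pool.Agent.Helper759.MatTri.triples M).card = turan n := by
      rintro ⟨A, hA, hAS⟩
      rw [← hcross A hA]
      congr 1
      ext S
      rw [Pool.Agent.Helper759.MatTri.triples, mem_filter,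
        Pool.Agent.Helper759.MatTri.mem_crossing]
      constructor
      · rintro ⟨-, h1, h2⟩
        exact ⟨h1, (hAS S h1).1 h2⟩
      · rintro ⟨h1, h2⟩
        exact ⟨mem_univ _, h1, (hAS S h1).2 h2⟩
    rcases Pool.Agent.Helper759.MatTri.split_or M hM with ⟨A, hA⟩ | h
    · have h1 := Pool.Agent.Helper759.MatTri.split_bound M hA
      rw [Fintype.card_fin] at h1
      exact ⟨h1.1, fun h2 => h1.2 (by omega) h2, hback⟩
    · rw [Fintype.card_fin] at h
      have h1 := Pool.Agent.Helper759.MatTri.large hn h
      exact ⟨h1.le, fun h2 => absurd h2 h1.ne, hback⟩
  · obtain ⟨A, -, hA⟩ := exists_subset_card_eq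
      (by rw [card_univ, Fintype.card_fin]; omega : n / 2 ≤ (univ : Finset (Fin n)).card)
    refine ⟨Pool.Agent.Helper759.MatTri.twoLines A,
      Pool.Agent.Helper759.MatTri.twoLines_fiveFree A, ?_⟩
    rw [hT, Pool.Agent.Helper759.MatTri.twoLines_triples, hcross A hA]

end Pool.Agent.Results.MP_555f9b_co.MatroidTriples
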